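import Pool.Agent.W254.PA.App

/-!
# `p`-adic Schanuel conjecture: relations which are linear in all the logarithms but one

Let `l_0` and `l_s` (`s` in any index set) be `p`-adic logarithms of algebraic numbers, linearly
independent over `ℚ`. There is a set `E` of at most `max (1, 4 D - 4)` indices such that no nonzero
polynomial with algebraic coefficients, of degree at most `D` in `l_0` and of total degree at most
one in the `l_s`, `s` not in `E`, vanishes.

More generally let `t_1, ..., t_n` be arbitrary elements of the algebraic closure of `ℚ_p`. There is a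
set `E` of at most `(4 D)^n - 2^n` indices such that the numbers `1` and `l_s`, `s` not in `E`, satisfy
no relation of degree one whose coefficients are polynomials in `t` of degree at most `D` in each
variable, with arbitrary algebraic coefficients: in every such relation all the coefficients vanish
at `t`. For `n = 0` this is the theorem of Baker and Brumer.

The theorems are proved in `Pool.Agent.W254.PA.App` and `Pool.Agent.W254.Ab` (starting files), with
the `p`-adic hyperplane case of the linear subgroup theorem of Waldschmidt and Roy.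
-/

set_option autoImplicit false

namespace Pool.Agent.Results.MP_c50dba_nt.LinearOverOneLogarithm

open MvPolynomial

/-- `L` is the Iwasawa logarithm. -/
structure IsIwasawaLog (p : ℕ) [Fact p.Prime] (L : PadicAlgCl p → PadicAlgCl p) : Prop where
  mul : ∀ x y : PadicAlgCl p, x ≠ 0 → y ≠ 0 → L (x * y) = L x + L y
  prime : L ((p : ℕ) : PadicAlgCl p) = 0
  ser : ∀ z : PadicAlgCl p, ‖z‖ < 1 →
    HasSum (fun n : ℕ => (-1 : PadicAlgCl p) ^ n * z ^ (n + 1) / ((n : PadicAlgCl p) + 1))
      (L (1 + z))

/-- `P` has degree at most `D` in each variable. -/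
def DegLE {p : ℕ} [Fact p.Prime] {n : ℕ} (D : ℕ)
    (P : MvPolynomial (Fin n) (algebraicClosure ℚ (PadicAlgCl p))) : Prop :=
  ∀ m ∈ P.support, ∀ i, m i ≤ D

/-- `P(X, Y)` has degree at most `D` in the variable `X`, and every monomial contains none of the
variables `Y_s`, or exactly one, to the first power and with `s` not in `E`. -/
def LinearInOthers {p : ℕ} [Fact p.Prime] {ι : Type} (D : ℕ) (E : Finset ι)
    (P : MvPolynomial (Option ι) (algebraicClosure ℚ (PadicAlgCl p))) : Prop :=
  ∀ m ∈ P.support, m none ≤ D ∧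
    ((∀ s, m (some s) = 0) ∨
      ∃ s, s ∉ E ∧ m (some s) = 1 ∧ ∀ s', s' ≠ s → m (some s') = 0)

/-- **Main result.** -/
theorem result (p : ℕ) [Fact p.Prime] (L : PadicAlgCl p → PadicAlgCl p) (hL : IsIwasawaLog p L)
    (D : ℕ) :
    -- one fixed logarithm
    (1 ≤ D → ∀ (ι : Type) (α : Option ι → PadicAlgCl p), (∀ o, α o ≠ 0) →
      (∀ o, IsAlgebraic ℚ (α o)) → LinearIndependent ℚ (fun o => L (α o)) →
      ∃ E : Finset ι, E.card ≤ max 1 (4 * D - 4) ∧
        ∀ P : MvPolynomial (Option ι) (algebraicClosure ℚ (PadicAlgCl p)),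
          LinearInOthers D E P → aeval (fun o => L (α o)) P = 0 → P = 0) ∧
    -- arbitrary numbers `t`
    (∀ (n : ℕ) (t : Fin n → PadicAlgCl p) (ι : Type) (α : ι → PadicAlgCl p), (∀ s, α s ≠ 0) →
      (∀ s, IsAlgebraic ℚ (α s)) → LinearIndependent ℚ (fun s => L (α s)) →
      ∃ E : Finset ι, E.card ≤ (4 * D) ^ n - 2 ^ n ∧
        ∀ (P₀ : MvPolynomial (Fin n) (algebraicClosure ℚ (PadicAlgCl p)))
          (P : ι →₀ MvPolynomial (Fin n) (algebraicClosure ℚ (PadicAlgCl p))),
          DegLE D P₀ → (∀ s, DegLE D (P s)) → (∀ s ∈ E, P s = 0) →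
          aeval t P₀ + P.sum (fun s R => aeval t R * L (α s)) = 0 →
          aeval t P₀ = 0 ∧ ∀ s, aeval t (P s) = 0) := by
  have hL' : Pool.Agent.W245.PB.IsIwasawaLog p L := ⟨hL.1, hL.2, hL.3⟩
  refine ⟨fun hD ι α h0 hα hli => Pool.Agent.W254.PA.fixed_logP hL' D hD α h0 hα hli,
    fun n t ι α h0 hα hli => ?_⟩
  obtain ⟨E, hE1, hE2⟩ := Pool.Agent.W254.PA.gen_logsP hL' t D α h0 hα hli
  exact ⟨E, hE1, fun P₀ P hP₀ hP hE h =>
    hE2 P₀ P hP₀ hP (fun s hs => by rw [hE s hs, map_zero]) h⟩

end Pool.Agent.Results.MP_c50dba_nt.LinearOverOneLogarithm
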