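import Pool.Agent.Y787.PFin

/-!
# `p`-adic Schanuel conjecture: points on varieties whose coordinates are linear forms in logarithms

Let `f_1, ..., f_r` be polynomials in `Y_1, ..., Y_m` and parameters `C_1, ..., C_k` with arbitrary
coefficients in the algebraic closure of `ℚ_p`. Let `W` be a space of dimension `N` over the field
`ℚ̄` of the algebraic numbers which consists of linear forms in `1` and `p`-adic logarithms of
algebraic numbers, with algebraic coefficients. Consider the tuples `y` in `W ^ m` which satisfy all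
equations `f_j (y, c) = 0` for some algebraic parameters `c` (depending on `y`) such that the space of
the vectors `v` with algebraic coordinates which are tangent to the fibre, that is
`∑ v_i (∂f_j/∂Y_i)(y, c) = 0` for all `j`, has dimension at most `ρ`. We prove that they lie in an
algebraic subset of `W ^ m` of dimension at most

`m (m - 1) + ρ N + k`.

For `ρ = 0` and `k = 0` the bound `m (m - 1)` depends neither on `W` nor on the degrees. If algebraic
relations between logarithms come from linear relations, then a variety over `ℚ̄` contains only those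
points of `W ^ m` which lie in affine subspaces defined over `ℚ̄` and contained in the variety; the
theorem says that this is true up to an error `m (m - 1)` in the dimension.

The second part counts the integer matrices `A` for which `A l` is such a point, where
`l_1, ..., l_N` are linearly independent `p`-adic logarithms of algebraic numbers. The complex
analogue is the starting result `MP_c82530_nt.PointsOnComplexVarieties`.
-/

set_option autoImplicit false

namespace Pool.Agent.Results.MP_c50dba_nt.PointsOnVarieties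

/-- `L` is the Iwasawa logarithm on the algebraic closure of `ℚ_p`. -/
structure IsIwasawaLog (p : ℕ) [Fact p.Prime] (L : PadicAlgCl p → PadicAlgCl p) : Prop where
  mul : ∀ x y : PadicAlgCl p, x ≠ 0 → y ≠ 0 → L (x * y) = L x + L y
  prime : L ((p : ℕ) : PadicAlgCl p) = 0
  ser : ∀ z : PadicAlgCl p, ‖z‖ < 1 →
    HasSum (fun n : ℕ => (-1 : PadicAlgCl p) ^ n * z ^ (n + 1) / ((n : PadicAlgCl p) + 1))
      (L (1 + z))

/-- The space of all linear combinations with algebraic coefficients of `1` and of the values of `L`
at algebraic numbers. -/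
noncomputable def LogForms {p : ℕ} [Fact p.Prime] (L : PadicAlgCl p → PadicAlgCl p) :
    Submodule (algebraicClosure ℚ (PadicAlgCl p)) (PadicAlgCl p) :=
  Submodule.span (algebraicClosure ℚ (PadicAlgCl p))
    ({1} ∪ {z | ∃ α : PadicAlgCl p, α ≠ 0 ∧ IsAlgebraic ℚ α ∧ z = L α})

/-- The space of the vectors `v` with algebraic coordinates such that the derivatives of all `f j`
at `z` in the direction `v` (of the first `m` variables) vanish. -/
noncomputable def AlgTangents {p : ℕ} [Fact p.Prime] {m k r : ℕ}
    (f : Fin r → MvPolynomial (Fin m ⊕ Fin k) (PadicAlgCl p)) (z : Fin m ⊕ Fin k → PadicAlgCl p) :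
    Submodule (algebraicClosure ℚ (PadicAlgCl p)) (Fin m → algebraicClosure ℚ (PadicAlgCl p)) where
  carrier := {v | ∀ j, ∑ i, (v i : PadicAlgCl p) *
    MvPolynomial.eval z (MvPolynomial.pderiv (Sum.inl i) (f j)) = 0}
  add_mem' := by
    intro v w hv hw j
    have h1 := hv j
    have h2 := hw j
    simp only [Pi.add_apply, IntermediateField.coe_add, add_mul, Finset.sum_add_distrib, h1, h2,
      add_zero]
  zero_mem' := by
    intro j
    simp only [Pi.zero_apply, IntermediateField.coe_zero, zero_mul, Finset.sum_const_zero]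
  smul_mem' := by
    intro c v hv j
    have h1 := hv j
    simp only [Pi.smul_apply, smul_eq_mul, IntermediateField.coe_mul, mul_assoc,
      ← Finset.mul_sum, h1, mul_zero]

/-- For some algebraic parameters `c` the point `y` satisfies the equations `f j (y, c) = 0`, and the
space of algebraic tangent vectors has dimension at most `ρ`. -/
def OnFamily {p : ℕ} [Fact p.Prime] {m k r : ℕ}
    (f : Fin r → MvPolynomial (Fin m ⊕ Fin k) (PadicAlgCl p)) (ρ : ℕ)
    (y : Fin m → PadicAlgCl p) : Prop :=
  ∃ c : Fin k → algebraicClosure ℚ (PadicAlgCl p),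
    (∀ j, MvPolynomial.eval (Sum.elim y fun a => (c a : PadicAlgCl p)) (f j) = 0) ∧
    Module.finrank (algebraicClosure ℚ (PadicAlgCl p))
      (AlgTangents f (Sum.elim y fun a => (c a : PadicAlgCl p))) ≤ ρ

theorem relP_eq {p : ℕ} [Fact p.Prime] {m k r : ℕ}
    (f : Fin r → MvPolynomial (Fin m ⊕ Fin k) (PadicAlgCl p))
    (z : Fin m ⊕ Fin k → PadicAlgCl p) : Pool.Agent.Y787.HS.RelP z f = AlgTangents f z := rfl

/-- **Main result.** -/
theorem result (p : ℕ) [Fact p.Prime] (L : PadicAlgCl p → PadicAlgCl p) (hL : IsIwasawaLog p L)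
    {m k r : ℕ} (f : Fin r → MvPolynomial (Fin m ⊕ Fin k) (PadicAlgCl p)) (ρ : ℕ) :
    (∀ (W : Submodule (algebraicClosure ℚ (PadicAlgCl p)) (PadicAlgCl p))
      [FiniteDimensional (algebraicClosure ℚ (PadicAlgCl p)) W], W ≤ LogForms L →
      ∀ φ : Fin (m * (m - 1) + ρ * Module.finrank (algebraicClosure ℚ (PadicAlgCl p)) W + k + 1) →
        ((Fin m → W) →ₗ[algebraicClosure ℚ (PadicAlgCl p)] algebraicClosure ℚ (PadicAlgCl p)),
      ∃ P : MvPolynomial (Fin (m * (m - 1) +
          ρ * Module.finrank (algebraicClosure ℚ (PadicAlgCl p)) W + k + 1))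
          (algebraicClosure ℚ (PadicAlgCl p)), P ≠ 0 ∧
        ∀ y : Fin m → W, OnFamily f ρ (fun i => (y i : PadicAlgCl p)) →
          MvPolynomial.eval (fun a => φ a y) P = 0) ∧
    ∀ (N : ℕ) (l : Fin N → PadicAlgCl p),
      (∀ j, ∃ α : PadicAlgCl p, α ≠ 0 ∧ IsAlgebraic ℚ α ∧ l j = L α) →
      LinearIndependent ℚ l →
      ∃ κ : ℕ, ∀ H : ℕ, 1 ≤ H →
        Set.ncard {A : Fin m → Fin N → ℤ | (∀ i j, |A i j| ≤ H) ∧
          OnFamily f ρ (fun i => ∑ j, (A i j : PadicAlgCl p) * l j)} ≤
        κ * H ^ (m * (m - 1) + ρ * N + k) := by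
  have hL' : Pool.Agent.W245.PB.IsIwasawaLog p L := ⟨hL.mul, hL.prime, hL.ser⟩
  constructor
  · intro W _ hW φ
    obtain ⟨P, h1, h2⟩ := Pool.Agent.Y787.famP_dim (ρ := ρ) hL' W hW f φ
    refine ⟨P, h1, ?_⟩
    rintro y ⟨c, h3, h4⟩
    refine h2 y c h3 ?_
    rw [relP_eq]
    exact h4
  · intro N l hl hli
    exact Pool.Agent.Y787.famP_count (ρ := ρ) hL' l hl hli f

end Pool.Agent.Results.MP_c50dba_nt.PointsOnVarieties
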