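import Pool.Agent.X139.BG.Main

/-!
# `p`-adic logarithms: sums with coefficients in a finite dimensional space

Let `l_s` be `p`-adic logarithms of algebraic numbers, linearly independent over `ℚ`, let `V` be a
space spanned by `N` numbers over the algebraic numbers `Q̄` (for instance the values at some point of
all polynomials of bounded degree in several variables), and let `Lf` be the space of all linear forms
in `1` and `p`-adic logarithms of algebraic numbers with coefficients in `Q̄`. If finitely many indices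
are left out (or given algebraic coefficients), then a sum `c + ∑ x_s l_s` with `c, x_s` in `V` lies
in `Lf` only in the trivial case where all `x_s` are algebraic. At most `N (N - 1)` indices have to
be left out if `1 ∈ V`. For the products `b z`, `z ∈ Lf`, `b ∈ V`, in place of elements of `Lf` it
is enough to leave out `N ^ 2 (N - 1)` indices.
-/

set_option autoImplicit false

namespace Pool.Agent.Results.MP_c50dba_nt.UnknownRightHandSide

open Finset Polynomial

variable {p : ℕ} [Fact p.Prime]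

/-- `L` is the Iwasawa logarithm. -/
structure IsIwasawaLog (p : ℕ) [Fact p.Prime] (L : PadicAlgCl p → PadicAlgCl p) : Prop where
  mul : ∀ x y : PadicAlgCl p, x ≠ 0 → y ≠ 0 → L (x * y) = L x + L y
  prime : L ((p : ℕ) : PadicAlgCl p) = 0
  ser : ∀ z : PadicAlgCl p, ‖z‖ < 1 →
    HasSum (fun n : ℕ => (-1 : PadicAlgCl p) ^ n * z ^ (n + 1) / ((n : PadicAlgCl p) + 1))
      (L (1 + z))

/-- the linear forms `β₀ + ∑ β_i L(b_i)` with algebraic `β_i` and nonzero algebraic `b_i` -/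
def Lf (L : PadicAlgCl p → PadicAlgCl p) : Set (PadicAlgCl p) :=
  {z | ∃ (n : ℕ) (b β : Fin n → PadicAlgCl p) (β₀ : PadicAlgCl p), IsAlgebraic ℚ β₀ ∧
    (∀ i, b i ≠ 0 ∧ IsAlgebraic ℚ (b i) ∧ IsAlgebraic ℚ (β i)) ∧ z = β₀ + ∑ i, β i * L (b i)}

/-- the combinations of the numbers `v k` with algebraic coefficients -/
def V {N : ℕ} (v : Fin N → PadicAlgCl p) : Set (PadicAlgCl p) :=
  {x | ∃ β : Fin N → PadicAlgCl p, (∀ k, IsAlgebraic ℚ (β k)) ∧ x = ∑ k, β k * v k}

/-- A sum `c + ∑ x_s L(α_s)` with `c, x_s` in `V v`, and `x_s` algebraic for `s ∈ E`, lies in `Lf` only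
if all the coefficients `x_s` are algebraic. -/
def FixedSide (L : PadicAlgCl p → PadicAlgCl p) {ι : Type} (α : ι → PadicAlgCl p) {N : ℕ}
    (v : Fin N → PadicAlgCl p) (E : Finset ι) : Prop :=
  ∀ (S : Finset ι) (x : ι → PadicAlgCl p) (c : PadicAlgCl p), (∀ s ∈ S, x s ∈ V v) → c ∈ V v →
    (∀ s ∈ S, s ∈ E → IsAlgebraic ℚ (x s)) → c + ∑ s ∈ S, x s * L (α s) ∈ Lf L →
    ∀ s ∈ S, IsAlgebraic ℚ (x s)

/-- A sum `c + ∑ x_s L(α_s)` with `c, x_s` in `V v` is equal to a product `b z` with `b ≠ 0` in `V v`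
and `z` in `Lf`, and with `x_s / b` algebraic for `s ∈ E`, only if all the `x_s / b` are algebraic. -/
def AnySide (L : PadicAlgCl p → PadicAlgCl p) {ι : Type} (α : ι → PadicAlgCl p) {N : ℕ}
    (v : Fin N → PadicAlgCl p) (E : Finset ι) : Prop :=
  ∀ (S : Finset ι) (x : ι → PadicAlgCl p) (b c z : PadicAlgCl p), (∀ s ∈ S, x s ∈ V v) →
    b ∈ V v → b ≠ 0 → c ∈ V v → (∀ s ∈ S, s ∈ E → IsAlgebraic ℚ (x s / b)) → z ∈ Lf L →
    c + ∑ s ∈ S, x s * L (α s) = b * z → ∀ s ∈ S, IsAlgebraic ℚ (x s / b)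

/-- `P` has degree at most `D` and algebraic coefficients. -/
def Pol (D : ℕ) (P : (PadicAlgCl p)[X]) : Prop := P.natDegree ≤ D ∧ ∀ k, IsAlgebraic ℚ (P.coeff k)

/-- A relation `P₀(t) + ∑ P_s(t) L(α_s) = Q(t) z` with `z` in `Lf` and polynomials of degree at most
`D` with algebraic coefficients, `Q ≠ 0`, `P_s = 0` for `s ∈ E`, holds only if all `P_s` are constant
multiples of `Q`. -/
def PolySide (L : PadicAlgCl p → PadicAlgCl p) {ι : Type} (α : ι → PadicAlgCl p) (t : PadicAlgCl p)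
    (D : ℕ) (E : Finset ι) : Prop :=
  ∀ (S : Finset ι) (P₀ Q : (PadicAlgCl p)[X]) (P : ι → (PadicAlgCl p)[X]) (z : PadicAlgCl p),
    Disjoint S E → Pol D P₀ → Pol D Q → (∀ s ∈ S, Pol D (P s)) → Q ≠ 0 → z ∈ Lf L →
    P₀.eval t + ∑ s ∈ S, (P s).eval t * L (α s) = Q.eval t * z →
    ∀ s ∈ S, ∃ a : PadicAlgCl p, P s = C a * Q

theorem V_span {N : ℕ} {v : Fin N → PadicAlgCl p} {x : PadicAlgCl p} (h : x ∈ V v) :
    x ∈ Submodule.span (algebraicClosure ℚ (PadicAlgCl p)) (Set.range v) := by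
  obtain ⟨β, hβ, rfl⟩ := h
  refine Submodule.sum_mem _ fun k _ => ?_
  have : β k * v k = (⟨β k, mem_algebraicClosure_iff.mpr (hβ k)⟩ :
      algebraicClosure ℚ (PadicAlgCl p)) • v k := by
    rw [Algebra.smul_def]; rfl
  rw [this]
  exact Submodule.smul_mem _ _ (Submodule.subset_span ⟨k, rfl⟩)

theorem Lf_span {L : PadicAlgCl p → PadicAlgCl p} {z : PadicAlgCl p} (h : z ∈ Lf L) :
    z ∈ Pool.Agent.W254.PA.LtE (Pool.Agent.W254.PA.logs L) := by
  obtain ⟨n, b, β, β₀, hβ₀, hb, rfl⟩ := h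
  refine Submodule.add_mem _ ?_ (Submodule.sum_mem _ fun i _ => ?_)
  · have := Pool.Agent.X139.BG.alg_memV _ (Pool.Agent.W254.PA.one_memP (L := L))
      ⟨β₀, mem_algebraicClosure_iff.mpr hβ₀⟩
    exact this
  · exact Pool.Agent.X139.BG.smul_memV _ ⟨β i, mem_algebraicClosure_iff.mpr (hb i).2.2⟩
      (Pool.Agent.W254.PA.log_memP (hb i).1 (hb i).2.1)

theorem poly_zero {t : PadicAlgCl p} (ht : Transcendental ℚ t) (R : (PadicAlgCl p)[X])
    (hR : ∀ k, IsAlgebraic ℚ (R.coeff k)) (h : R.eval t = 0) : R = 0 := by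
  have htQ : Transcendental (algebraicClosure ℚ (PadicAlgCl p)) t := by
    intro h
    apply ht
    haveI : Algebra.IsAlgebraic ℚ (algebraicClosure ℚ (PadicAlgCl p)) :=
      algebraicClosure.isAlgebraic ℚ (PadicAlgCl p)
    exact h.restrictScalars ℚ
  obtain ⟨R', hR'⟩ : R ∈ Polynomial.lifts (algebraMap (algebraicClosure ℚ (PadicAlgCl p))
      (PadicAlgCl p)) := by
    rw [Polynomial.lifts_iff_coeff_lifts]
    intro k
    exact ⟨⟨R.coeff k, mem_algebraicClosure_iff.mpr (hR k)⟩, rfl⟩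
  have hR'' : R'.map (algebraMap (algebraicClosure ℚ (PadicAlgCl p)) (PadicAlgCl p)) = R := hR'
  have h0 : R' = 0 := by
    refine (transcendental_iff.mp htQ) R' ?_
    rw [aeval_def, ← eval_map, hR'']
    exact h
  rw [← hR'', h0, Polynomial.map_zero]

/-- **Main result.** -/
theorem result (p : ℕ) [Fact p.Prime] (L : PadicAlgCl p → PadicAlgCl p) (hL : IsIwasawaLog p L)
    (ι : Type) (α : ι → PadicAlgCl p) (h0 : ∀ s, α s ≠ 0) (hα : ∀ s, IsAlgebraic ℚ (α s))
    (hli : LinearIndependent ℚ (fun s => L (α s))) :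
    (∀ (N : ℕ) (v : Fin N → PadicAlgCl p), 1 ∈ V v → ∃ E : Finset ι, E.card ≤ N * (N - 1) ∧
      ((∃ β : PadicAlgCl p, β ≠ 0 ∧ IsAlgebraic ℚ β ∧ L β ≠ 0 ∧ L β ∈ V v) →
        E.card + 1 ≤ N * (N - 1)) ∧ FixedSide L α v E) ∧
    (∀ (N : ℕ) (v : Fin N → PadicAlgCl p), ∃ E : Finset ι, E.card ≤ N ^ 2 * (N - 1) ∧
      AnySide L α v E) ∧
    (∀ (t : PadicAlgCl p), Transcendental ℚ t → ∀ D : ℕ,
      ∃ E : Finset ι, E.card ≤ (D + 1) ^ 2 * D ∧ PolySide L α t D E) := by
  classical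
  have hL' : Pool.Agent.W245.PB.IsIwasawaLog p L := ⟨hL.1, hL.2, hL.3⟩
  have hV := Pool.Agent.W254.PA.hyp_padic hL'
  have h1 : (1 : PadicAlgCl p) ∈ Pool.Agent.W254.PA.LtE (Pool.Agent.W254.PA.logs L) :=
    Pool.Agent.W254.PA.one_memP
  have hl : ∀ s, L (α s) ∈ Pool.Agent.W254.PA.LtE (Pool.Agent.W254.PA.logs L) := fun s =>
    Pool.Agent.W254.PA.log_memP (h0 s) (hα s)
  have hind := Pool.Agent.X139.BG.indep_W1P hL' α h0 hα hli
  have hfin : ∀ {N : ℕ} (v : Fin N → PadicAlgCl p),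
      FiniteDimensional (algebraicClosure ℚ (PadicAlgCl p))
        (Submodule.span (algebraicClosure ℚ (PadicAlgCl p)) (Set.range v)) :=
    fun v => FiniteDimensional.span_of_finite _ (Set.finite_range _)
  have hfr : ∀ {N : ℕ} (v : Fin N → PadicAlgCl p),
      Module.finrank (algebraicClosure ℚ (PadicAlgCl p))
        (Submodule.span (algebraicClosure ℚ (PadicAlgCl p)) (Set.range v)) ≤ N := by
    intro N v
    have := finrank_range_le_card (R := algebraicClosure ℚ (PadicAlgCl p)) v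
    rwa [Fintype.card_fin] at this
  have hquot : ∀ (N : ℕ) (v : Fin N → PadicAlgCl p),
      ∃ E : Finset ι, E.card ≤ N ^ 2 * (N - 1) ∧ AnySide L α v E := by
    intro N v
    haveI := hfin v
    obtain ⟨E, hE, h⟩ := Pool.Agent.X139.BG.quot hV h1
      (Submodule.span (algebraicClosure ℚ (PadicAlgCl p)) (Set.range v)) (fun s => L (α s)) hl hind
    refine ⟨E, hE.trans (Nat.mul_le_mul (Nat.pow_le_pow_left (hfr v) 2)
      (Nat.sub_le_sub_right (hfr v) 1)), fun S x b c z hx hb hb0 hc hxE hz heq =>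
      h S x b c z (fun s hs => V_span (hx s hs)) (V_span hb) hb0 (V_span hc) hxE (Lf_span hz)
        (by rw [← heq, add_comm])⟩
  refine ⟨?_, hquot, ?_⟩
  · intro N v h1V
    haveI := hfin v
    obtain ⟨E, hE, hE', h⟩ := Pool.Agent.X139.BG.fixed hV h1
      (Submodule.span (algebraicClosure ℚ (PadicAlgCl p)) (Set.range v)) (V_span h1V)
      (fun s => L (α s)) hl hind
    have hmono : Module.finrank (algebraicClosure ℚ (PadicAlgCl p))
        (Submodule.span (algebraicClosure ℚ (PadicAlgCl p)) (Set.range v)) *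
        (Module.finrank (algebraicClosure ℚ (PadicAlgCl p))
        (Submodule.span (algebraicClosure ℚ (PadicAlgCl p)) (Set.range v)) - 1) ≤ N * (N - 1) :=
      Nat.mul_le_mul (hfr v) (Nat.sub_le_sub_right (hfr v) 1)
    refine ⟨E, hE.trans hmono, ?_, ?_⟩
    · rintro ⟨β, hβ, hβa, hβ0, hβV⟩
      exact (hE' ⟨L β, V_span hβV, Pool.Agent.W254.PA.log_memP hβ hβa,
        Pool.Agent.W254.PA.log_transcendentalP hL' hβ hβa hβ0⟩).trans hmono
    · intro S x c hx hc hxE hsum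
      exact h S x c _ (fun s hs => V_span (hx s hs)) (V_span hc) hxE (Lf_span hsum) (add_comm _ _)
  · intro t ht D
    have hmem : ∀ R : (PadicAlgCl p)[X], Pol D R → R.eval t ∈ V (fun k : Fin (D + 1) => t ^ (k : ℕ)) := by
      intro R hR
      refine ⟨fun k => R.coeff k, fun k => hR.2 k, ?_⟩
      rw [eval_eq_sum_range' (Nat.lt_succ_of_le hR.1), Finset.sum_range]
    obtain ⟨E, hE, h⟩ := hquot (D + 1) (fun k : Fin (D + 1) => t ^ (k : ℕ))
    refine ⟨E, hE, ?_⟩
    intro S P₀ Q P z hSE hP₀ hQ hP hQ0 hz heq s hs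
    have hQt : Q.eval t ≠ 0 := fun h => hQ0 (poly_zero ht Q hQ.2 h)
    have h2 := h S (fun s => (P s).eval t) (Q.eval t) (P₀.eval t) z
      (fun s hs => hmem _ (hP s hs)) (hmem _ hQ) hQt (hmem _ hP₀) (fun s hs hsE =>
        absurd hsE (Finset.disjoint_left.mp hSE hs)) hz heq s hs
    refine ⟨(P s).eval t / Q.eval t, ?_⟩
    rw [← sub_eq_zero]
    apply poly_zero ht
    · intro k
      rw [coeff_sub, coeff_C_mul]
      exact ((hP s hs).2 k).sub (h2.mul (hQ.2 k))
    · rw [eval_sub, eval_mul, eval_C, div_mul_cancel₀ _ hQt, sub_self]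

end Pool.Agent.Results.MP_c50dba_nt.UnknownRightHandSide
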